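import Pool.Agent.U337.EM.Stm

/-!
Project EM (helper337), package I: from the semilinear map to the isomorphism of Lie algebras.
-/

set_option autoImplicit false

open MvPolynomial

namespace Pool.Agent.U603.EM

open Pool.Agent.U337.EM

section poly

variable {F : Type} [Field F] {d : ℕ}

/-- the coefficient of `X k` -/
noncomputable def Lc (k : Fin d) (p : Sy F d) : F := coeff (Finsupp.single k 1) p

theorem Lc_eq (k : Fin d) (p : Sy F d) : Lc k p = constantCoeff (pderiv k p) := by
  rw [constantCoeff_eq, coeff_pderiv, zero_add]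
  simp [Lc]

theorem Lc_mul (k : Fin d) (p q : Sy F d) :
    Lc k (p * q) = constantCoeff p * Lc k q + Lc k p * constantCoeff q := by
  rw [Lc_eq, Lc_eq, Lc_eq, pderiv_mul, map_add, map_mul, map_mul]
  ring

theorem Lc_add (k : Fin d) (p q : Sy F d) : Lc k (p + q) = Lc k p + Lc k q := by
  unfold Lc; rw [coeff_add]

theorem Lc_X (k i : Fin d) : Lc k (X i : Sy F d) = if i = k then 1 else 0 := by
  unfold Lc
  rw [coeff_X]
  by_cases h : i = k
  · subst h; simp
  · rw [if_neg h, if_neg]
    intro h2
    exact h ((Finsupp.single_left_injective (one_ne_zero)) h2)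

/-- the homogeneous component of degree one -/
theorem hc_one (p : Sy F d) : homogeneousComponent 1 p = ∑ k, C (Lc k p) * X k := by
  classical
  ext m
  rw [coeff_homogeneousComponent, coeff_sum]
  simp only [coeff_C_mul, coeff_X]
  by_cases h : m.degree = 1
  · obtain ⟨a, rfl⟩ := (Finsupp.sum_eq_one_iff m).1 h
    rw [if_pos h, Finset.sum_eq_single a]
    · simp [Lc]
    · intro b _ hb
      rw [if_neg, mul_zero]
      intro h2
      exact hb ((Finsupp.single_left_injective (one_ne_zero)) h2)
    · intro h2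
      exact absurd (Finset.mem_univ a) h2
  · rw [if_neg h]
    symm
    refine Finset.sum_eq_zero fun k _ => ?_
    rw [if_neg, mul_zero]
    intro h2
    apply h
    rw [← h2]
    simp

/-- the chain rule at `0` -/
theorem chain (f : Fin d → Sy F d) (hf : ∀ i, constantCoeff (f i) = 0) (k : Fin d) (p : Sy F d) :
    Lc k (aeval f p) = ∑ l, Lc l p * Lc k (f l) := by
  have hcc : ∀ q : Sy F d, constantCoeff (aeval f q) = constantCoeff q := by
    intro q
    induction q using MvPolynomial.induction_on with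
    | C a => rw [aeval_C]; simp [algebraMap_eq]
    | add p q hp hq => rw [map_add, map_add, map_add, hp, hq]
    | mul_X p i hp => rw [map_mul, map_mul, map_mul, hp, aeval_X, hf, constantCoeff_X, mul_zero]
  induction p using MvPolynomial.induction_on with
  | C a =>
    have h1 : ∀ l : Fin d, Lc l (C a : Sy F d) = 0 := by
      intro l
      rw [Lc_eq, pderiv_C, map_zero]
    rw [aeval_C, algebraMap_eq, h1]
    symm
    exact Finset.sum_eq_zero fun l _ => by rw [h1, zero_mul]
  | add p q hp hq =>
    rw [map_add, Lc_add, hp, hq, ← Finset.sum_add_distrib]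
    exact Finset.sum_congr rfl fun l _ => by rw [Lc_add, add_mul]
  | mul_X p i _ =>
    rw [map_mul, aeval_X, Lc_mul, hf, mul_zero, add_zero, hcc]
    have h1 : ∀ l : Fin d, Lc l (p * X i) = constantCoeff p * (if i = l then 1 else 0) := by
      intro l
      rw [Lc_mul, constantCoeff_X, mul_zero, add_zero, Lc_X]
    simp only [h1]
    rw [Finset.sum_eq_single i]
    · rw [if_pos rfl, mul_one]
    · intro l _ hl
      rw [if_neg (Ne.symm hl), mul_zero, zero_mul]
    · intro h
      exact absurd (Finset.mem_univ i) h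

/-- the linear part of an automorphism is injective -/
theorem lin_inj (f f' : Fin d → Sy F d) (hf' : ∀ i, constantCoeff (f' i) = 0)
    (h : ∀ i, aeval f' (f i) = X i) (c : Fin d → F) (hc : ∑ i, C (c i) * lin f i = 0) : c = 0 := by
  have h1 : ∀ k, ∑ i, c i * Lc k (f i) = 0 := by
    intro k
    have h2 := congrArg (Lc k) hc
    have h3 : Lc k (0 : Sy F d) = 0 := by unfold Lc; rw [coeff_zero]
    rw [h3] at h2
    rw [← h2]
    unfold Lc
    rw [coeff_sum]
    refine Finset.sum_congr rfl fun i _ => ?_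
    rw [coeff_C_mul]
    unfold lin
    rw [coeff_homogeneousComponent, if_pos (by simp)]
  funext m
  have h4 : ∀ i, (if i = m then (1 : F) else 0) = ∑ l, Lc l (f i) * Lc m (f' l) := by
    intro i
    rw [← chain f' hf', h i, Lc_X]
  have h5 : c m = ∑ i, c i * (if i = m then (1 : F) else 0) := by simp
  rw [h5]
  simp only [h4, Finset.mul_sum]
  rw [Finset.sum_comm]
  show _ = (0 : F)
  refine Finset.sum_eq_zero fun l _ => ?_
  have h6 : ∑ i, c i * (Lc l (f i) * Lc m (f' l)) = (∑ i, c i * Lc l (f i)) * Lc m (f' l) := by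
    rw [Finset.sum_mul]
    exact Finset.sum_congr rfl fun i _ => by ring
  rw [h6, h1, zero_mul]

end poly

theorem aeval_lf {F : Type} [Field F] {L : Type} [LieRing L] [LieAlgebra F L] {d : ℕ}
    (ab : L →ₗ[F] (Fin d → F)) (g : Fin d → Sy F d) (x : L) :
    aeval g (lf ab x) = ∑ i, C (ab x i) * g i := by
  unfold lf
  rw [map_sum]
  refine Finset.sum_congr rfl fun i _ => ?_
  rw [map_mul, aeval_X, aeval_C]
  rfl

/-- the image of `lf` under the linear part is a linear form -/
theorem aeval_lf_lin {F : Type} [Field F] {L : Type} [LieRing L] [LieAlgebra F L] {d : ℕ}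
    (ab : L →ₗ[F] (Fin d → F)) (f : Fin d → Sy F d) (x : L) :
    aeval (lin f) (lf ab x) = ∑ k, C (∑ i, ab x i * Lc k (f i)) * X k := by
  rw [aeval_lf]
  unfold lin
  simp only [hc_one, Finset.mul_sum]
  rw [Finset.sum_comm]
  refine Finset.sum_congr rfl fun k _ => ?_
  rw [map_sum, Finset.sum_mul]
  refine Finset.sum_congr rfl fun i _ => ?_
  rw [map_mul]
  ring

/-- the second derived algebra of a metabelian Lie algebra vanishes -/
theorem der2 {F : Type} [Field F] {L : Type} [LieRing L] [LieAlgebra F L]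
    (h : ∀ a b c e : L, ⁅⁅a, b⁆, ⁅c, e⁆⁆ = 0) : LieAlgebra.derivedSeries F L 2 = ⊥ := by
  show LieAlgebra.derivedSeriesOfIdeal F L (1 + 1) ⊤ = ⊥
  rw [LieAlgebra.derivedSeriesOfIdeal_succ, LieSubmodule.lie_eq_bot_iff]
  have key : ∀ x ∈ LieAlgebra.derivedSeries F L 1, x ∈ Submodule.span F {z : L | ∃ a b : L, ⁅a, b⁆ = z} := by
    intro x hx
    have h1 := LieAlgebra.coe_derivedSeries_one_eq F L
    have h2 : x ∈ ((LieAlgebra.derivedSeries F L 1 : LieIdeal F L) : Submodule F L) := hx
    rw [h1] at h2
    exact h2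
  intro x hx m hm
  have hx' := key x hx
  have hm' := key m hm
  clear hx hm
  induction hx' using Submodule.span_induction with
  | mem x hx =>
    obtain ⟨a, b, rfl⟩ := hx
    induction hm' using Submodule.span_induction with
    | mem m hm =>
      obtain ⟨c, e, rfl⟩ := hm
      exact h a b c e
    | zero => exact lie_zero _
    | add y z _ _ hy hz => rw [lie_add, hy, hz, add_zero]
    | smul t y _ hy => rw [lie_smul, hy, smul_zero]
  | zero => exact zero_lie _
  | add y z _ _ hy hz => rw [add_lie, hy, hz, add_zero]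
  | smul t y _ hy => rw [smul_lie, hy, smul_zero]

theorem t_I : S_I := by
  intro F _ _ L H _ _ _ _ _ d abL abH hL hH hmet ML MH _ _ _ _ _ _ _ _ fL fH f f' Φ hf0 hf'0 hff' hf'f
    hΦ hdim Θ hΘ1 hΘ2 hΘ3
  classical
  -- `Θ` is injective
  have hio : ∀ x, fL.io x = 0 → x = 0 := by
    intro x hx
    have h1 := fL.h6 x hx
    rw [der2 hmet] at h1
    exact (LieSubmodule.mem_bot x).1 h1
  have hΘinj : ∀ x, Θ x = 0 → x = 0 := by
    intro x hx
    have h1 := hΘ2 x
    rw [hx, map_zero, aeval_lf] at h1
    exact hio x (hΘ3 x (lin_inj f f' hf'0 hf'f _ h1.symm) hx)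
  -- `Θ L ⊆ io H`
  have hrange : ∀ x, ∃ h, fH.io h = Θ x := by
    intro x
    obtain ⟨h, hh⟩ := hH.1 fun k => ∑ i, abL x i * Lc k (f i)
    have h1 : fH.pr (Θ x - fH.io h) = 0 := by
      rw [map_sub, hΘ2, fH.h1, aeval_lf_lin]
      unfold lf
      rw [hh, sub_self]
    obtain ⟨y, hy⟩ := fH.h5 _ h1
    refine ⟨y + h, ?_⟩
    rw [map_add, hy, sub_add_cancel]
  -- a linear section of `io`
  obtain ⟨g, hg⟩ := (fH.io.rangeRestrict).exists_rightInverse_of_surjective
    (LinearMap.range_rangeRestrict fH.io)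
  have hΘr : ∀ x, Θ x ∈ LinearMap.range fH.io := fun x => by
    obtain ⟨h, hh⟩ := hrange x
    exact ⟨h, hh⟩
  let θ : L →ₗ[F] H := g ∘ₗ (Θ.codRestrict (LinearMap.range fH.io) hΘr)
  have hθ : ∀ x, fH.io (θ x) = Θ x := by
    intro x
    have h1 := LinearMap.congr_fun hg (Θ.codRestrict (LinearMap.range fH.io) hΘr x)
    have h2 := congrArg Subtype.val h1
    exact h2
  have hθinj : Function.Injective θ := by
    rw [injective_iff_map_eq_zero]
    intro x hx
    apply hΘinj
    rw [← hθ, hx, map_zero]
  -- dimensions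
  have hfin : Module.Finite F H ∧ Module.finrank F H ≤ Module.finrank F L := by
    have hrk : Module.rank F H ≤ (Module.finrank F L : Cardinal) := by
      refine rank_le (fun s hs => ?_)
      have h1 := hdim s.card (fun i => (s.equivFin.symm i : H)) (hs.comp _ s.equivFin.symm.injective)
      exact h1
    have hlt : Module.rank F H < Cardinal.aleph0 := lt_of_le_of_lt hrk (Cardinal.natCast_lt_aleph0)
    have hF : Module.Finite F H := Module.rank_lt_aleph0_iff.1 hlt
    refine ⟨hF, ?_⟩
    rw [← Module.finrank_eq_rank] at hrk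
    exact_mod_cast hrk
  have := hfin.1
  have hle : Module.finrank F L ≤ Module.finrank F H := LinearMap.finrank_le_finrank_of_injective hθinj
  have heq : Module.finrank F L = Module.finrank F H := le_antisymm hle hfin.2
  have hθsurj : Function.Surjective θ := (LinearMap.injective_iff_surjective_of_finrank_eq_finrank heq).1 hθinj
  have hioH : ∀ h h', fH.io h = fH.io h' → h = h' := by
    intro h h' hh
    obtain ⟨x, rfl⟩ := hθsurj h
    obtain ⟨x', rfl⟩ := hθsurj h'
    rw [hθ, hθ, ← sub_eq_zero, ← map_sub] at hh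
    have := hΘinj _ hh
    rw [sub_eq_zero] at this
    rw [this]
  have hlie : ∀ x y, θ ⁅x, y⁆ = ⁅θ x, θ y⁆ := by
    intro x y
    apply hioH
    rw [hθ, fH.h2, hΘ1, hθ, hθ]
    have h1 : ∀ z, lf abH (θ z) = aeval (lin f) (lf abL z) := by
      intro z
      rw [← fH.h1, hθ, hΘ2]
    rw [h1, h1]
  exact ⟨{ LinearEquiv.ofBijective θ ⟨hθinj, hθsurj⟩ with
    map_lie' := fun {x y} => hlie x y }⟩

end Pool.Agent.U603.EM
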